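import Pool.Agent.N963.GN.NewfL
import Pool.Agent.W169.HF.EC
import Pool.Agent.K6.H88.MD.Tw

/-!
# The L-function of an elliptic curve has no preimage under hyperbolicity preservers

`E : y² = x³ + a x + b` is an elliptic curve over `ℚ` of conductor `N` and root number `w`, `Λ` its completed L-function and
`Ξ(z) = Λ(1 + i z)` (`w = 1`), `Ξ(z) = i Λ(1 + i z)` (`w = -1`), a real entire function of order one. The Riemann
hypothesis for `L(E, s)` says that all zeros of `Ξ` are real. Let `φ` be a function of the Laguerre-Pólya class. The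
differential operator of infinite order `φ(D) = ∑ φ_n D^n` preserves the class of real entire functions of order less
than two with only real zeros, and it does not increase the number of non-real zeros (Pólya, Benz, de Bruijn). It
would be a proof of the Riemann hypothesis for `L(E, s)`, up to finitely many zeros, to write `Ξ` in the form `φ(D) G`
where `G` has only finitely many non-real zeros.

We show that this is impossible for every `E` and every `φ` that has at least one zero. The second part makes the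
preimages explicit for `φ(s) = exp(-λ s² + β s) ∏ (1 - r_k s) exp(r_k s)`: they are the averages of `Ξ` with respect to
the Pólya frequency densities, and all of them have infinitely many non-real zeros. (The case of zero-free `φ`, that is
`φ = exp(-λ s²)`, is Newman's conjecture for the extended Selberg class, proved by Dobner after Rodgers and Tao; it says
that the Riemann hypothesis, if true, is barely so with respect to the heat flow. The theorem says that this is the
case with respect to all hyperbolicity preservers.)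

Proof: modules `Pool.Agent.N963.GN` of helper963 and others, which prove the theorem for the functions of Fourier
transforms of cusp forms on the imaginary axis (handed in so far for the Ramanujan Xi function only). If
`G' - a G = Ξ` and `G` had only finitely many non-real zeros then the Laguerre expression of `G`, integrated against
`exp (2 t x)`, would be bounded below by the mean square of the kernel near the boundary of the strip of holomorphy of
`u ↦ f(i e^u / √N) e^u`, which is contradicted by the mean values of `f` near the cusps.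
-/

set_option autoImplicit false

open Complex UpperHalfPlane MatrixGroups CongruenceSubgroup Polynomial Filter MeasureTheory

namespace Pool.Agent.Results.MP_553913_nt.LaguerrePolyaPreimages

/-- The coefficient `a_p` of `E : y² = x³ + a x + b` at a prime `p ∤ 2 (4a³ + 27b²)`: `p` minus the
number of pairs `(x, y)` modulo `p` with `y² ≡ x³ + a x + b (mod p)`. -/
noncomputable def ap (a b : ℤ) (p : ℕ) : ℤ :=
  (p : ℤ) - (((Finset.range p ×ˢ Finset.range p).filter
    (fun xy : ℕ × ℕ => (p : ℤ) ∣ (xy.2 : ℤ) ^ 2 -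
      ((xy.1 : ℤ) ^ 3 + a * (xy.1 : ℤ) + b))).card : ℤ)

/-- The `n`-th Fourier coefficient of `f`. -/
noncomputable def coef {N : ℕ} (f : CuspForm (Gamma0 N : Subgroup (GL (Fin 2) ℝ)) 2) (n : ℕ) : ℂ :=
  (qExpansion 1 f).coeff n

/-- `f ∈ S_2(Γ₀(N))` is the newform of the elliptic curve `E : y² = x³ + a x + b` of conductor `N` and
root number `w`: the Fourier coefficients `c(n)` of `f` are real with `c(1) = 1`, they satisfy the
Hecke relations `c(mn) = c(m) c(n)` for coprime `m`, `n` and `c(p^(j+2)) = c(p) c(p^(j+1)) - p c(p^j)`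
(without the last term if `p ∣ N`), `f(-1/(Nτ)) = -w N τ² f(τ)`, `c(p) = a_p(E)` for all primes
`p ∤ 2 (4a³ + 27b²)`, `|c(p)| ≤ 2 √p` for all `p ∤ N` (Hasse) and `c(p) = 0, 1, -1` for `p ∣ N`.
By the modularity theorem (Wiles, Taylor-Wiles, Breuil-Conrad-Diamond-Taylor) it exists for every `E`. -/
structure IsFormOf (a b : ℤ) (N : ℕ) (f : CuspForm (Gamma0 N : Subgroup (GL (Fin 2) ℝ)) 2) (w : ℝ) :
    Prop where
  one : coef f 1 = 1
  real : ∀ n, (coef f n).im = 0
  mul : ∀ m n : ℕ, Nat.Coprime m n → coef f (m * n) = coef f m * coef f n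
  pow : ∀ p j : ℕ, p.Prime → coef f (p ^ (j + 2)) = coef f p * coef f (p ^ (j + 1)) -
      (if p ∣ N then 0 else (p : ℂ) * coef f (p ^ j))
  sign : w = 1 ∨ w = -1
  fricke : ∀ τ τ' : ℍ, (τ' : ℂ) * ((N : ℂ) * (τ : ℂ)) = -1 →
    f τ' = -(w : ℂ) * (N : ℂ) * (τ : ℂ) ^ 2 * f τ
  points : ∀ p : ℕ, p.Prime → ¬ (p : ℤ) ∣ 2 * (4 * a ^ 3 + 27 * b ^ 2) → coef f p = (ap a b p : ℂ)
  good : ∀ p : ℕ, p.Prime → ¬ p ∣ N → ‖coef f p‖ ≤ 2 * Real.sqrt p
  bad : ∀ p : ℕ, p.Prime → p ∣ N → coef f p = 0 ∨ coef f p = 1 ∨ coef f p = -1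

/-- `Λ` is the completed L-function of `f`: it is entire and
`Λ(s) = N^(s/2) (2π)^(-s) Γ(s) ∑ c(n) n^(-s)` for `Re s > 2`. -/
def IsCompleted {N : ℕ} (f : CuspForm (Gamma0 N : Subgroup (GL (Fin 2) ℝ)) 2) (Λ : ℂ → ℂ) : Prop :=
  Differentiable ℂ Λ ∧ ∀ s : ℂ, 2 < s.re →
    Λ s = ((Real.sqrt N / (2 * Real.pi) : ℝ) : ℂ) ^ s * Complex.Gamma s *
      ∑' n : ℕ, coef f (n + 1) * ((n + 1 : ℕ) : ℂ) ^ (-s)

/-- The real entire function `Ξ(z) = Λ(1 + i z)` if `w = 1`, and `Ξ(z) = i Λ(1 + i z)` if `w = -1`. -/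
noncomputable def Xi (w : ℝ) (Λ : ℂ → ℂ) (z : ℂ) : ℂ := (if w = 1 then 1 else Complex.I) * Λ (1 + Complex.I * z)

/-- The Laguerre-Pólya class: the functions, not identically zero, that are locally uniform limits of real
polynomials all of whose complex zeros are real. -/
def LaguerrePolya (φ : ℂ → ℂ) : Prop := (∃ z, φ z ≠ 0) ∧ ∃ Q : ℕ → ℝ[X],
  (∀ (N : ℕ) (w : ℂ), aeval w (Q N) = 0 → w.im = 0) ∧
    TendstoLocallyUniformly (fun (N : ℕ) (w : ℂ) => aeval w (Q N)) φ atTop

/-- `φ(D) G = F`: the series `∑ φ_n G^(n)(z)`, `φ(s) = ∑ φ_n s^n`, converges to `F z` for every `z`. -/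
def OperatorEq (φ G F : ℂ → ℂ) : Prop := ∀ z : ℂ, HasSum (fun n : ℕ =>
  iteratedDeriv n φ 0 / (n.factorial : ℂ) * iteratedDeriv n G z) (F z)

/-- `S(u) = exp(λ u² + i β u) ∏ (1 - i r_k u) exp(i r_k u)`. If `λ ≥ 0`, `∑ r_k² < ∞` and not all `r_k` are zero, `1 / S` is
the Fourier transform of a Pólya frequency density; all of them but the Gaussian ones are obtained (Schoenberg). -/
noncomputable def S (lam β : ℝ) (r : ℕ → ℝ) (u : ℝ) : ℂ :=
  cexp (lam * u ^ 2 + Complex.I * β * u) * ∏' k, ((1 - Complex.I * r k * u) * cexp (Complex.I * r k * u))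

/-- The kernel `f(i e^u / √N) e^u`. -/
noncomputable def ker {N : ℕ} (f : CuspForm (Gamma0 N : Subgroup (GL (Fin 2) ℝ)) 2) (u : ℝ) : ℂ :=
  f (ofComplex (Complex.I * cexp (u : ℂ) / (Real.sqrt N : ℝ))) * cexp (u : ℂ)

/-- The average of `Λ(1 + i z)` over real translations of `z` with respect to the Pólya frequency density: the Fourier
transform of `z ↦ Λ(1 + i z)` is the kernel `f(i e^u / √N) e^u`, which is divided by `S`. -/
noncomputable def Average {N : ℕ} (f : CuspForm (Gamma0 N : Subgroup (GL (Fin 2) ℝ)) 2) (lam β : ℝ) (r : ℕ → ℝ)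
    (z : ℂ) : ℂ :=
  ∫ u : ℝ, ker f u / S lam β r u * cexp (Complex.I * z * u)

/-- The points of the upper half plane used in the kernel are mapped to each other by the Fricke involution. -/
lemma fr {N : ℕ} [NeZero N] {f : CuspForm (Gamma0 N : Subgroup (GL (Fin 2) ℝ)) 2} {a b : ℤ} {w : ℝ}
    (hf : IsFormOf a b N f w) (u : ℝ) :
    f (ofComplex (Complex.I * cexp ((-u : ℝ) : ℂ) / (Real.sqrt N : ℝ))) =
      (w : ℂ) * cexp (((2 : ℕ) : ℂ) * u) * f (ofComplex (Complex.I * cexp (u : ℂ) / (Real.sqrt N : ℝ))) := by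
  have hN : 0 < Real.sqrt N := Real.sqrt_pos.2 (by exact_mod_cast Nat.pos_of_ne_zero (NeZero.ne N))
  have hN' : ((Real.sqrt N : ℝ) : ℂ) ≠ 0 := by exact_mod_cast hN.ne'
  have hsq : ((Real.sqrt N : ℝ) : ℂ) ^ 2 = (N : ℂ) := by
    have h1 : (Real.sqrt N) ^ 2 = (N : ℝ) := Real.sq_sqrt (Nat.cast_nonneg N)
    exact_mod_cast congrArg (fun x : ℝ => (x : ℂ)) h1
  have hpos : ∀ v : ℝ, 0 < (Complex.I * cexp (v : ℂ) / ((Real.sqrt N : ℝ) : ℂ)).im := by
    intro v
    have e : Complex.I * cexp (v : ℂ) / ((Real.sqrt N : ℝ) : ℂ) = Complex.I * ((Real.exp v / Real.sqrt N : ℝ) : ℂ) := by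
      push_cast
      ring
    rw [e]
    simp only [Complex.mul_im, Complex.I_re, Complex.I_im, Complex.ofReal_re, Complex.ofReal_im]
    have := div_pos (Real.exp_pos v) hN
    simpa using this
  have hc : ∀ v : ℝ, ((ofComplex (Complex.I * cexp (v : ℂ) / ((Real.sqrt N : ℝ) : ℂ)) : ℍ) : ℂ) =
      Complex.I * cexp (v : ℂ) / ((Real.sqrt N : ℝ) : ℂ) := by
    intro v
    rw [ofComplex_apply_of_im_pos (hpos v)]
  have h := hf.fricke (ofComplex (Complex.I * cexp (u : ℂ) / ((Real.sqrt N : ℝ) : ℂ)))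
    (ofComplex (Complex.I * cexp ((-u : ℝ) : ℂ) / ((Real.sqrt N : ℝ) : ℂ))) ?_
  · rw [h, hc]
    have e2 : (cexp (u : ℂ)) ^ 2 = cexp (((2 : ℕ) : ℂ) * u) := by
      rw [← Complex.exp_nat_mul]
    rw [← e2]
    congr 1
    field_simp
    rw [← hsq]
    linear_combination (-(w : ℂ) * ((Real.sqrt N : ℝ) : ℂ) ^ 2) * Complex.I_sq
  · rw [hc, hc]
    have e3 : cexp ((-u : ℝ) : ℂ) * cexp (u : ℂ) = 1 := by
      rw [← Complex.exp_add]
      simp
    rw [← hsq]
    field_simp
    linear_combination Complex.I_sq * (cexp ((-u : ℝ) : ℂ) * cexp (u : ℂ)) - e3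

/-- `E : y² = x³ + a x + b` is a quadratic twist of the modular curve `X₀(11) : y² = x³ - 13392 x - 1080432` or of
`X₀(14) : y² = x³ + 5805 x - 285714`. -/
def IsTwist (a b : ℤ) : Prop := ∃ h : ℤ, h ≠ 0 ∧
    ((a = -13392 * h ^ 2 ∧ b = -1080432 * h ^ 3) ∨ (a = 5805 * h ^ 2 ∧ b = -285714 * h ^ 3))

/-- (For a curve with a newform.) **Main theorem.** Let `E : y² = x³ + a x + b` be an elliptic curve over `ℚ`, `Λ` its completed L-function, which is the
Fourier transform of the kernel `f(i e^u / √N) e^u` on the line `Re s = 1`, and `Ξ` the corresponding real entire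
function. (1) If `φ` is a function of the Laguerre-Pólya class with at least one zero and `φ(D) G = Ξ`, where `G` is a real
entire function of order less than two, then `G` has infinitely many non-real zeros. (2) All averages of `Λ(1 + i z)`
with respect to Pólya frequency densities, other than Gaussian ones, have infinitely many non-real zeros. -/
theorem main (a b : ℤ) (N : ℕ) [NeZero N] (f : CuspForm (Gamma0 N : Subgroup (GL (Fin 2) ℝ)) 2) (w : ℝ)
    (_ : 4 * a ^ 3 + 27 * b ^ 2 ≠ 0) (hf : IsFormOf a b N f w) :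
    ∃ Λ : ℂ → ℂ, IsCompleted f Λ ∧ (∀ Λ', IsCompleted f Λ' → Λ' = Λ) ∧
      (∀ s : ℂ, Λ (2 - s) = (w : ℂ) * Λ s) ∧
      (∀ z : ℂ, ∫ u : ℝ, ker f u * cexp (Complex.I * z * u) = Λ (1 + Complex.I * z)) ∧
      (∀ x : ℝ, (Xi w Λ x).im = 0) ∧
      (∀ φ : ℂ → ℂ, LaguerrePolya φ → (∃ s, φ s = 0) →
        ∀ G : ℂ → ℂ, Differentiable ℂ G → (∀ x : ℝ, (G x).im = 0) →
          (∃ C ρ : ℝ, ρ < 2 ∧ ∀ z : ℂ, ‖G z‖ ≤ Real.exp (C * (1 + ‖z‖) ^ ρ)) →
          OperatorEq φ G (Xi w Λ) → {z : ℂ | G z = 0 ∧ z.im ≠ 0}.Infinite) ∧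
      ∀ (lam β : ℝ) (r : ℕ → ℝ), 0 ≤ lam → Summable (fun k => r k ^ 2) → (∃ k, r k ≠ 0) →
        {z : ℂ | Average f lam β r z = 0 ∧ z.im ≠ 0}.Infinite := by
  have hf' : Pool.Agent.W169.HF.IsForm N f w :=
    { one := hf.one
      real := hf.real
      mul := hf.mul
      pow := hf.pow
      sign := hf.sign
      fricke := hf.fricke
      good := hf.good
      bad := fun p hp hpN => by
        have h1 : (1 : ℝ) ≤ Real.sqrt p := by
          rw [Real.one_le_sqrt]
          exact_mod_cast hp.one_le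
        have h2 : ‖coef f p‖ ≤ 1 := by
          rcases hf.bad p hp hpN with h | h | h <;> simp [h]
        exact h2.trans h1 }
  obtain ⟨Λ, hΛ, hfe, -, -⟩ := Pool.Agent.W174.HF.nf1 N f w hf'
  -- the constant
  obtain ⟨κ, hκdef⟩ : ∃ κ : ℂ, κ = (if w = 1 then 1 else Complex.I) := ⟨_, rfl⟩
  have hκ : κ ^ 2 = (w : ℂ) := by
    rcases hf.sign with h | h
    · rw [hκdef, h]; simp
    · have h1 : ¬ (-1 : ℝ) = 1 := by norm_num
      rw [hκdef, h, if_neg h1, Complex.I_sq]
      simp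
  have hκ0 : κ ≠ 0 := by
    rintro rfl
    rcases hf.sign with h | h <;> rw [h] at hκ <;> norm_num at hκ
  have h1 : (qExpansion 1 f).coeff 1 ≠ 0 := by
    have := hf.one
    unfold coef at this
    rw [this]
    exact one_ne_zero
  have hMF : Pool.Agent.N963.GN.MF N 2 (fun τ => f (ofComplex τ)) (fun n => (qExpansion 1 f).coeff n) κ :=
    Pool.Agent.N963.GN.mf_of (N := N) (k := 2) (by norm_num) f h1 hf.sign
      (Pool.Agent.N963.GN.real_of_coeff (N := N) (k := 2) f hf.real) (fun u => fr hf u) hκ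
  have hL : ∀ z : ℂ, Pool.Agent.N963.GN.Lt (fun u : ℝ => Pool.Agent.N963.GN.Km N 2 (fun τ => f (ofComplex τ)) κ (u : ℂ)) z =
      Xi w Λ z := by
    intro z
    rw [Pool.Agent.N963.GN.Lt_eq_Lam hMF hΛ.1 (C := 2) hΛ.2 z]
    unfold Xi
    rw [hκdef]
    congr 2
    push_cast
    ring
  have hKm : ∀ u : ℝ, Pool.Agent.N963.GN.Km N 2 (fun τ => f (ofComplex τ)) κ (u : ℂ) = κ * ker f u := by
    intro u
    unfold Pool.Agent.N963.GN.Km ker
    have e : ((2 : ℕ) : ℂ) * (u : ℂ) / 2 = (u : ℂ) := by push_cast; ring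
    rw [e]
    ring
  have hav : ∀ (lam β : ℝ) (r : ℕ → ℝ) (z : ℂ), Pool.Agent.N963.GN.Lt (fun u : ℝ =>
      Pool.Agent.N963.GN.Km N 2 (fun τ => f (ofComplex τ)) κ (u : ℂ) / Pool.Agent.N963.GN.Sf lam β r u) z =
      κ * Average f lam β r z := by
    intro lam β r z
    unfold Average Pool.Agent.N963.GN.Lt
    rw [← integral_const_mul]
    refine integral_congr_ae (Eventually.of_forall fun u => ?_)
    simp only
    rw [hKm]
    unfold Pool.Agent.N963.GN.Sf S
    ring
  refine ⟨Λ, hΛ, fun Λ' h' => Pool.Agent.W169.HF.completed_unique h' hΛ, hfe, ?_, ?_, ?_, ?_⟩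
  · intro z
    have h2 := hL z
    unfold Pool.Agent.N963.GN.Lt Xi at h2
    rw [← hκdef] at h2
    have h3 : (∫ u : ℝ, Pool.Agent.N963.GN.Km N 2 (fun τ => f (ofComplex τ)) κ (u : ℂ) * cexp (Complex.I * z * u)) =
        κ * ∫ u : ℝ, ker f u * cexp (Complex.I * z * u) := by
      rw [← integral_const_mul]
      refine integral_congr_ae (Eventually.of_forall fun u => ?_)
      simp only
      rw [hKm]
      ring
    rw [h3] at h2
    exact mul_left_cancel₀ hκ0 h2
  · intro x
    have hK := Pool.Agent.N963.GN.kernM hMF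
    have h2 := Pool.Agent.N963.GN.sym_Lt (h := fun u : ℝ => Pool.Agent.N963.GN.Km N 2 (fun τ => f (ofComplex τ)) κ (u : ℂ))
      (fun u => hK.herm u) (x : ℂ)
    rw [Complex.conj_ofReal, hL] at h2
    exact Complex.conj_eq_iff_im.1 h2.symm
  · intro φ hφ hφ1 G hG hs hgr hop
    refine Pool.Agent.N963.GN.opM' hMF hφ hφ1 hG (Pool.Agent.N963.GN.sym_of_real' hG hs) ?_ (fun z => ?_)
    · obtain ⟨C, ρ, hρ, h⟩ := hgr
      refine ⟨|C|, max ρ 0, abs_nonneg _, le_max_right _ _, max_lt hρ (by norm_num), fun z => (h z).trans ?_⟩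
      rw [Real.exp_le_exp]
      have h1 : 1 ≤ 1 + ‖z‖ := by linarith [norm_nonneg z]
      have h2 : 0 ≤ (1 + ‖z‖) ^ ρ := Real.rpow_nonneg (by linarith) _
      calc C * (1 + ‖z‖) ^ ρ ≤ |C| * (1 + ‖z‖) ^ ρ := mul_le_mul_of_nonneg_right (le_abs_self C) h2
        _ ≤ |C| * (1 + ‖z‖) ^ (max ρ 0) := mul_le_mul_of_nonneg_left
            (Real.rpow_le_rpow_of_exponent_le h1 (le_max_left _ _)) (abs_nonneg _)
    · rw [hL z]
      exact hop z
  · intro lam β r hlam hr h
    have h2 := Pool.Agent.N963.GN.avM hMF hlam hr h (β := β)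
    have h3 : {z : ℂ | Average f lam β r z = 0 ∧ z.im ≠ 0} = Pool.Agent.N963.GN.NRZ
        (Pool.Agent.N963.GN.Lt (fun u : ℝ => Pool.Agent.N963.GN.Km N 2 (fun τ => f (ofComplex τ)) κ (u : ℂ) /
          Pool.Agent.N963.GN.Sf lam β r u)) := by
      ext z
      simp only [Set.mem_ofPred_eq, Pool.Agent.N963.GN.NRZ]
      rw [hav, mul_eq_zero]
      simp [hκ0]
    rw [h3]
    exact h2

/-- The newforms of the quadratic twists of `X₀(11)` and `X₀(14)` exist. -/
theorem exists_form {a b : ℤ} (h : IsTwist a b) : 4 * a ^ 3 + 27 * b ^ 2 ≠ 0 ∧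
    ∃ (N : ℕ) (_ : NeZero N) (f : CuspForm (Gamma0 N : Subgroup (GL (Fin 2) ℝ)) 2) (w : ℝ), IsFormOf a b N f w := by
  refine ⟨Pool.Agent.K6.H88.MD.Fam.disc h, ?_⟩
  obtain ⟨N, i, f, w, h⟩ := Pool.Agent.K6.H88.MD.newforms h
  exact ⟨N, i, f, w, h.one, h.real, h.mul, h.pow, h.sign, h.fricke, h.points, h.good, h.bad⟩

/-- **Main theorem.** Let `E : y² = x³ + a x + b` be an elliptic curve over `ℚ`, `Λ` its completed L-function, which is the
Fourier transform of the kernel `f(i e^u / √N) e^u` on the line `Re s = 1`, and `Ξ` the corresponding real entire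
function. (1) If `φ` is a function of the Laguerre-Pólya class with at least one zero and `φ(D) G = Ξ`, where `G` is a real
entire function of order less than two, then `G` has infinitely many non-real zeros. (2) All averages of `Λ(1 + i z)`
with respect to Pólya frequency densities, other than Gaussian ones, have infinitely many non-real zeros. The newform is proved to exist for all quadratic twists of
`X₀(11)` and `X₀(14)`. -/
theorem result :
    (∀ (a b : ℤ) (N : ℕ) [NeZero N] (f : CuspForm (Gamma0 N : Subgroup (GL (Fin 2) ℝ)) 2) (w : ℝ),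
      4 * a ^ 3 + 27 * b ^ 2 ≠ 0 → IsFormOf a b N f w →
      ∃ Λ : ℂ → ℂ, IsCompleted f Λ ∧ (∀ Λ', IsCompleted f Λ' → Λ' = Λ) ∧
        (∀ s : ℂ, Λ (2 - s) = (w : ℂ) * Λ s) ∧
        (∀ z : ℂ, ∫ u : ℝ, ker f u * cexp (Complex.I * z * u) = Λ (1 + Complex.I * z)) ∧
        (∀ x : ℝ, (Xi w Λ x).im = 0) ∧
        (∀ φ : ℂ → ℂ, LaguerrePolya φ → (∃ s, φ s = 0) →
          ∀ G : ℂ → ℂ, Differentiable ℂ G → (∀ x : ℝ, (G x).im = 0) →
            (∃ C ρ : ℝ, ρ < 2 ∧ ∀ z : ℂ, ‖G z‖ ≤ Real.exp (C * (1 + ‖z‖) ^ ρ)) →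
            OperatorEq φ G (Xi w Λ) → {z : ℂ | G z = 0 ∧ z.im ≠ 0}.Infinite) ∧
        ∀ (lam β : ℝ) (r : ℕ → ℝ), 0 ≤ lam → Summable (fun k => r k ^ 2) → (∃ k, r k ≠ 0) →
          {z : ℂ | Average f lam β r z = 0 ∧ z.im ≠ 0}.Infinite) ∧
    ∀ a b : ℤ, IsTwist a b → 4 * a ^ 3 + 27 * b ^ 2 ≠ 0 ∧
      ∃ (N : ℕ) (_ : NeZero N) (f : CuspForm (Gamma0 N : Subgroup (GL (Fin 2) ℝ)) 2) (w : ℝ), IsFormOf a b N f w :=
  ⟨fun a b N _ f w h hf => main a b N f w h hf, fun _ _ h => exists_form h⟩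

end Pool.Agent.Results.MP_553913_nt.LaguerrePolyaPreimages
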