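import Pool.Agent.N831.LP.L
import Pool.Agent.W169.HF.EC
import Pool.Agent.K6.H88.MD.Tw

/-!
# Li coefficients of L-functions of elliptic curves with a large base point

`E : y² = x³ + a x + b` is an elliptic curve over `ℚ` of conductor `N`, `Λ` its completed L-function. By the criterion
of Li (Bombieri and Lagarias, Lagarias) the Riemann hypothesis for `L(E, s)` is equivalent to the positivity of the
numbers `li A n = ∑_ρ Re (1 - ((ρ - A) / (ρ + A - 2))^n)` (`ρ` the zeros of `Λ`, with multiplicity) for all `n ≥ 1`, for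
any one base point `A ≥ 3/2`.

We prove for every `E`, without any hypothesis: for every `κ < 2` all coefficients with `1 ≤ n ≤ κ A log A` are
positive, and at least `c n A log A`, for all large `A`. The constant `2` can be improved if and only if all zeros of
`Λ` are in a strip `|Re s - 1| ≤ d` with `d < 1/2`; a zero with `|Re ρ - 1| > 1/κ` produces a negative coefficient with
`n ≤ κ A log A` for ALL large `A`. The Riemann hypothesis for `L(E, s)` holds if and only if every constant `κ` is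
admissible.

Proof: modules `Pool.Agent.N831.LI` and `Pool.Agent.N831.LP` of helper831 (which prove the theorem for functions given by
axioms, verified there for all newforms with real coefficients, and handed in so far for the Ramanujan Xi function
only). The positivity needs a density theorem with exponent `(1 - 2δ)/(1 - δ)` for the zeros with real part at least
`1 + δ`, and a log-free one near the line; they rest on the mollified second moment of project GD2 of helper671.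
Zeros at the centre (curves of positive rank) and real zeros off the centre, which cannot be excluded here, are
admitted.
-/

set_option autoImplicit false

open Complex UpperHalfPlane MatrixGroups CongruenceSubgroup Filter

namespace Pool.Agent.Results.MP_553913_nt.LiBasePoint

/-- The coefficient `a_p` of `E : y² = x³ + a x + b` at a prime `p ∤ 2 (4a³ + 27b²)`: `p` minus the
number of pairs `(x, y)` modulo `p` with `y² ≡ x³ + a x + b (mod p)`. -/
noncomputable def ap (a b : ℤ) (p : ℕ) : ℤ :=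
  (p : ℤ) - (((Finset.range p ×ˢ Finset.range p).filter
    (fun xy : ℕ × ℕ => (p : ℤ) ∣ (xy.2 : ℤ) ^ 2 -
      ((xy.1 : ℤ) ^ 3 + a * (xy.1 : ℤ) + b))).card : ℤ)

/-- The `n`-th Fourier coefficient of `f`. -/
noncomputable def coef {N : ℕ} (f : CuspForm (Gamma0 N : Subgroup (GL (Fin 2) ℝ)) 2) (n : ℕ) : ℂ :=
  (qExpansion 1 f).coeff n

/-- `f ∈ S_2(Γ₀(N))` is the newform of the elliptic curve `E : y² = x³ + a x + b` of conductor `N` and
root number `w`: the Fourier coefficients `c(n)` of `f` are real with `c(1) = 1`, they satisfy the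
Hecke relations `c(mn) = c(m) c(n)` for coprime `m`, `n` and `c(p^(j+2)) = c(p) c(p^(j+1)) - p c(p^j)`
(without the last term if `p ∣ N`), `f(-1/(Nτ)) = -w N τ² f(τ)`, `c(p) = a_p(E)` for all primes
`p ∤ 2 (4a³ + 27b²)`, `|c(p)| ≤ 2 √p` for all `p ∤ N` (Hasse) and `c(p) = 0, 1, -1` for `p ∣ N`.
By the modularity theorem (Wiles, Taylor-Wiles, Breuil-Conrad-Diamond-Taylor) it exists for every `E`. -/
structure IsFormOf (a b : ℤ) (N : ℕ) (f : CuspForm (Gamma0 N : Subgroup (GL (Fin 2) ℝ)) 2) (w : ℝ) :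
    Prop where
  one : coef f 1 = 1
  real : ∀ n, (coef f n).im = 0
  mul : ∀ m n : ℕ, Nat.Coprime m n → coef f (m * n) = coef f m * coef f n
  pow : ∀ p j : ℕ, p.Prime → coef f (p ^ (j + 2)) = coef f p * coef f (p ^ (j + 1)) -
      (if p ∣ N then 0 else (p : ℂ) * coef f (p ^ j))
  sign : w = 1 ∨ w = -1
  fricke : ∀ τ τ' : ℍ, (τ' : ℂ) * ((N : ℂ) * (τ : ℂ)) = -1 →
    f τ' = -(w : ℂ) * (N : ℂ) * (τ : ℂ) ^ 2 * f τ
  points : ∀ p : ℕ, p.Prime → ¬ (p : ℤ) ∣ 2 * (4 * a ^ 3 + 27 * b ^ 2) → coef f p = (ap a b p : ℂ)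
  good : ∀ p : ℕ, p.Prime → ¬ p ∣ N → ‖coef f p‖ ≤ 2 * Real.sqrt p
  bad : ∀ p : ℕ, p.Prime → p ∣ N → coef f p = 0 ∨ coef f p = 1 ∨ coef f p = -1

/-- `Λ` is the completed L-function of `f`: it is entire and
`Λ(s) = N^(s/2) (2π)^(-s) Γ(s) ∑ c(n) n^(-s)` for `Re s > 2`. -/
def IsCompleted {N : ℕ} (f : CuspForm (Gamma0 N : Subgroup (GL (Fin 2) ℝ)) 2) (Λ : ℂ → ℂ) : Prop :=
  Differentiable ℂ Λ ∧ ∀ s : ℂ, 2 < s.re →
    Λ s = ((Real.sqrt N / (2 * Real.pi) : ℝ) : ℂ) ^ s * Complex.Gamma s *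
      ∑' n : ℕ, coef f (n + 1) * ((n + 1 : ℕ) : ℂ) ^ (-s)

/-- The term of the zero `ρ` in the `n`-th Li coefficient with base point `A`, with the multiplicity of `ρ`. -/
noncomputable def term (Λ : ℂ → ℂ) (A : ℝ) (n : ℕ) (ρ : ℂ) : ℝ :=
  (analyticOrderNatAt Λ ρ : ℝ) * (1 - ((ρ - A) / (ρ + A - 2)) ^ n).re

/-- The `n`-th Li coefficient with base point `A`: the sum over the zeros `ρ` of `Λ`, with multiplicity, of
`Re (1 - ((ρ - A) / (ρ + A - 2)) ^ n)`; `A = 3/2` is the usual choice. -/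
noncomputable def li (Λ : ℂ → ℂ) (A : ℝ) (n : ℕ) : ℝ := ∑' ρ : {ρ : ℂ // Λ ρ = 0}, term Λ A n ρ

/-- The coefficients with `1 ≤ n ≤ κ A log A` are at least `c n A log A`, for all large `A`. -/
def Large (Λ : ℂ → ℂ) (κ : ℝ) : Prop := ∃ c : ℝ, 0 < c ∧ ∀ᶠ A : ℝ in atTop, ∀ n : ℕ, 1 ≤ n →
  (n : ℝ) ≤ κ * A * Real.log A → c * n * A * Real.log A ≤ li Λ A n

/-- The coefficients with `1 ≤ n ≤ κ A log A` are nonnegative, for arbitrarily large `A`. -/
def SometimesNonneg (Λ : ℂ → ℂ) (κ : ℝ) : Prop := ∃ᶠ A : ℝ in atTop, ∀ n : ℕ, 1 ≤ n →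
  (n : ℝ) ≤ κ * A * Real.log A → 0 ≤ li Λ A n

/-- All zeros of `Λ` are in the strip `|Re s - 1| ≤ d`. -/
def Strip (Λ : ℂ → ℂ) (d : ℝ) : Prop := ∀ s : ℂ, Λ s = 0 → |s.re - 1| ≤ d

lemma newf_of {N : ℕ} [NeZero N] {f : CuspForm (Gamma0 N : Subgroup (GL (Fin 2) ℝ)) 2} {a b : ℤ} {w : ℝ}
    (hf : IsFormOf a b N f w) : W388.IsNewf N ((2 : ℕ) : ℤ) f w := by
  have hN0 : (0 : ℝ) ≤ (N : ℝ) := Nat.cast_nonneg N
  have hsq : ((Real.sqrt N : ℝ) : ℂ) ^ 2 = (N : ℂ) := by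
    have h1 : (Real.sqrt N) ^ 2 = (N : ℝ) := Real.sq_sqrt hN0
    exact_mod_cast congrArg (fun x : ℝ => (x : ℂ)) h1
  refine ⟨hf.one, hf.real, hf.mul, ?_, hf.sign, ?_⟩
  · intro p j hp
    have h1 := hf.pow p j hp
    unfold coef at h1
    rw [h1]
    norm_num
  · intro τ τ' h
    rw [hf.fricke τ τ' h]
    congr 1
    have hI : Complex.I ^ 2 = -1 := Complex.I_sq
    have : (((Real.sqrt N : ℝ) : ℂ) * (τ : ℂ) / Complex.I) ^ (((2 : ℕ) : ℤ)) = -((N : ℂ) * (τ : ℂ) ^ 2) := by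
      rw [zpow_natCast, div_pow, mul_pow, hsq, hI]
      ring
    rw [this]
    ring

lemma lam_eq {N : ℕ} [NeZero N] {f : CuspForm (Gamma0 N : Subgroup (GL (Fin 2) ℝ)) 2} {a b : ℤ} {w : ℝ}
    (hf : IsFormOf a b N f w) : IsCompleted f (Pool.Agent.Y771.NF.Lam (N := N) (k := 2) f) := by
  refine ⟨Pool.Agent.Y771.NF.Lam_diff (N := N) (k := 2) (by norm_num) (newf_of hf), fun s hs => ?_⟩
  exact Pool.Agent.Y771.NF.Lam_ser (N := N) (k := 2) (by norm_num) (newf_of hf) s (by norm_num; linarith)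

open Pool.Agent.N831.LP in
theorem key {N : ℕ} [NeZero N] {f : CuspForm (Gamma0 N : Subgroup (GL (Fin 2) ℝ)) 2} {a b : ℤ} {w : ℝ}
    (hf : IsFormOf a b N f w) {Λ : ℂ → ℂ} (hΛ : IsCompleted f Λ) :
    ∃ v : ℂ, v ≠ 0 ∧ P2 1 (fun z => v * Λ (((1 : ℝ) : ℂ) + z)) := by
  obtain ⟨v, hv, hP⟩ := p2_mellin (N := N) (k := 2) (f := f) (by norm_num) (newf_of hf)
  refine ⟨v, hv, ?_⟩
  have e1 : Pool.Agent.Y771.NF.Lam (N := N) (k := 2) f = Λ :=
    Pool.Agent.W169.HF.completed_unique (lam_eq hf) hΛ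
  have e : (((2 : ℕ) : ℂ)) / 2 = ((1 : ℝ) : ℂ) := by push_cast; norm_num
  rw [e1] at hP
  simp only [e] at hP
  exact hP

/-- `E : y² = x³ + a x + b` is a quadratic twist of the modular curve `X₀(11) : y² = x³ - 13392 x - 1080432` or of
`X₀(14) : y² = x³ + 5805 x - 285714`. -/
def IsTwist (a b : ℤ) : Prop := ∃ h : ℤ, h ≠ 0 ∧
    ((a = -13392 * h ^ 2 ∧ b = -1080432 * h ^ 3) ∨ (a = 5805 * h ^ 2 ∧ b = -285714 * h ^ 3))

open Pool.Agent.N831.LP in
/-- (For a curve with a newform.) **Main theorem.** Let `E : y² = x³ + a x + b` be an elliptic curve over `ℚ` and `Λ` its completed L-function. The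
sums `li Λ A n` converge absolutely for `A ≥ 3`. (1) For `κ < 2` the coefficients with `1 ≤ n ≤ κ A log A` are at
least `c n A log A` for all large `A`. (2) If all zeros satisfy `|Re s - 1| ≤ d`, `0 < d < 1/2`, then this holds for
`κ < 1/(2 d (1 - d))`, a number larger than `2`. (3) If `Λ` has a zero with `|Re s - 1| > 1/κ`, then for ALL large `A`
there is a negative coefficient with `n ≤ κ A log A`. (4), (5) Some `κ > 2` is admissible, if only for arbitrarily large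
`A` and nonnegativity, if and only if all zeros satisfy `|Re s - 1| ≤ d` for some `d < 1/2`. (6), (7) All `κ` are
admissible if and only if the Riemann hypothesis holds for `L(E, s)`. -/
theorem main (a b : ℤ) (N : ℕ) [NeZero N] (f : CuspForm (Gamma0 N : Subgroup (GL (Fin 2) ℝ)) 2) (w : ℝ)
    (_ : 4 * a ^ 3 + 27 * b ^ 2 ≠ 0) (hf : IsFormOf a b N f w) :
    ∃ Λ : ℂ → ℂ, IsCompleted f Λ ∧ (∀ Λ', IsCompleted f Λ' → Λ' = Λ) ∧
      (∀ s : ℂ, Λ (2 - s) = (w : ℂ) * Λ s) ∧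
      (∀ A : ℝ, 3 ≤ A → ∀ n : ℕ, Summable fun ρ : {ρ : ℂ // Λ ρ = 0} => term Λ A n ρ) ∧
      (∀ κ : ℝ, κ < 2 → Large Λ κ) ∧
      (∀ d : ℝ, 0 < d → d < 1 / 2 → Strip Λ d → ∀ κ : ℝ, κ < 1 / (2 * d * (1 - d)) → Large Λ κ) ∧
      (∀ (κ : ℝ) (s : ℂ), 0 < κ → Λ s = 0 → 1 / κ < |s.re - 1| →
        ∀ᶠ A : ℝ in atTop, ∃ n : ℕ, 1 ≤ n ∧ (n : ℝ) ≤ κ * A * Real.log A ∧ li Λ A n < 0) ∧
      ((∃ κ : ℝ, 2 < κ ∧ SometimesNonneg Λ κ) ↔ ∃ d : ℝ, d < 1 / 2 ∧ Strip Λ d) ∧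
      ((∃ κ : ℝ, 2 < κ ∧ Large Λ κ) ↔ ∃ d : ℝ, d < 1 / 2 ∧ Strip Λ d) ∧
      ((∀ s : ℂ, Λ s = 0 → s.re = 1) ↔ ∀ κ : ℝ, 0 < κ → SometimesNonneg Λ κ) ∧
      ((∀ s : ℂ, Λ s = 0 → s.re = 1) ↔ ∀ κ : ℝ, Large Λ κ) := by
  have hΛ := lam_eq hf
  obtain ⟨Λ, hL⟩ : ∃ Λ : ℂ → ℂ, Λ = Pool.Agent.Y771.NF.Lam (N := N) (k := 2) f := ⟨_, rfl⟩
  rw [← hL] at hΛ
  obtain ⟨v, hv, hP⟩ := key hf hΛ
  have hκ : (1 : ℝ) / 2 ≤ 1 := by norm_num
  have e2 : (2 : ℂ) * ((1 : ℝ) : ℂ) = 2 := by push_cast; norm_num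
  have h0 := main2 hκ hv hP (L := li Λ) fun a n => by
    rw [e2]
    rfl
  obtain ⟨h1, h2, h3, h4, h5, h6, h7⟩ := h0
  have hfe : ∀ s : ℂ, Λ (2 - s) = (w : ℂ) * Λ s := fun s => by
    have h := Pool.Agent.Y771.NF.Lam_fe (N := N) (k := 2) (f := f) (by norm_num) (newf_of hf) s
    rw [← hL] at h
    exact_mod_cast h
  have hw0 : (w : ℂ) ≠ 0 := by
    rcases hf.sign with h | h <;> rw [h] <;> norm_num
  -- reflection
  have hsym : ∀ s : ℂ, Λ s = 0 → Λ (2 - s) = 0 := fun s hs => by rw [hfe, hs, mul_zero]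
  have hstrip : ∀ d : ℝ, Strip Λ d ↔ ZeroFree Λ (1 + d) := by
    intro d
    constructor
    · intro h s hs hs0
      have k1 := h s hs0
      have := le_abs_self (s.re - 1)
      linarith
    · intro h s hs
      have key : ∀ s, Λ s = 0 → s.re ≤ 1 + d := fun s hs => by
        by_contra hcon
        push Not at hcon
        exact h s hcon hs
      have k1 := key s hs
      have k2 := key _ (hsym s hs)
      have k3 : (2 - s).re = 2 - s.re := by simp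
      rw [k3] at k2
      rw [abs_le]
      constructor <;> linarith
  refine ⟨Λ, hΛ, fun Λ' h' => Pool.Agent.W169.HF.completed_unique h' hΛ, hfe, fun A hA n => ?_, h1,
    fun d hd hd2 hs κ hκ => h2 d hd hd2 ((hstrip d).1 hs) κ hκ, fun κ s hκ hs hs2 => ?_, ?_, ?_, h6, h7⟩
  · have k1 := Pool.Agent.N831.LP.summable hκ hv hP (a := A) (by linarith) n
    rw [e2] at k1
    exact k1
  · rcases le_or_gt 0 (s.re - 1) with h8 | h8
    · rw [abs_of_nonneg h8] at hs2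
      exact h3 κ s hκ hs (by linarith)
    · rw [abs_of_neg h8] at hs2
      refine h3 κ (2 - s) hκ (hsym s hs) ?_
      have k3 : (2 - s).re = 2 - s.re := by simp
      rw [k3]
      linarith
  · simp only [hstrip]
    exact h4
  · simp only [hstrip]
    exact h5

/-- The newforms of the quadratic twists of `X₀(11)` and `X₀(14)` exist. -/
theorem exists_form {a b : ℤ} (h : IsTwist a b) : 4 * a ^ 3 + 27 * b ^ 2 ≠ 0 ∧
    ∃ (N : ℕ) (_ : NeZero N) (f : CuspForm (Gamma0 N : Subgroup (GL (Fin 2) ℝ)) 2) (w : ℝ), IsFormOf a b N f w := by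
  refine ⟨Pool.Agent.K6.H88.MD.Fam.disc h, ?_⟩
  obtain ⟨N, i, f, w, h⟩ := Pool.Agent.K6.H88.MD.newforms h
  exact ⟨N, i, f, w, h.one, h.real, h.mul, h.pow, h.sign, h.fricke, h.points, h.good, h.bad⟩

/-- **Main theorem.** Let `E : y² = x³ + a x + b` be an elliptic curve over `ℚ` and `Λ` its completed L-function. The
sums `li Λ A n` converge absolutely for `A ≥ 3`. (1) For `κ < 2` the coefficients with `1 ≤ n ≤ κ A log A` are at
least `c n A log A` for all large `A`. (2) If all zeros satisfy `|Re s - 1| ≤ d`, `0 < d < 1/2`, then this holds for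
`κ < 1/(2 d (1 - d))`, a number larger than `2`. (3) If `Λ` has a zero with `|Re s - 1| > 1/κ`, then for ALL large `A`
there is a negative coefficient with `n ≤ κ A log A`. (4), (5) Some `κ > 2` is admissible, if only for arbitrarily large
`A` and nonnegativity, if and only if all zeros satisfy `|Re s - 1| ≤ d` for some `d < 1/2`. (6), (7) All `κ` are
admissible if and only if the Riemann hypothesis holds for `L(E, s)`. The newform is proved to exist for all quadratic twists of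
`X₀(11)` and `X₀(14)`. -/
theorem result :
    (∀ (a b : ℤ) (N : ℕ) [NeZero N] (f : CuspForm (Gamma0 N : Subgroup (GL (Fin 2) ℝ)) 2) (w : ℝ),
      4 * a ^ 3 + 27 * b ^ 2 ≠ 0 → IsFormOf a b N f w →
      ∃ Λ : ℂ → ℂ, IsCompleted f Λ ∧ (∀ Λ', IsCompleted f Λ' → Λ' = Λ) ∧
        (∀ s : ℂ, Λ (2 - s) = (w : ℂ) * Λ s) ∧
        (∀ A : ℝ, 3 ≤ A → ∀ n : ℕ, Summable fun ρ : {ρ : ℂ // Λ ρ = 0} => term Λ A n ρ) ∧
        (∀ κ : ℝ, κ < 2 → Large Λ κ) ∧
        (∀ d : ℝ, 0 < d → d < 1 / 2 → Strip Λ d → ∀ κ : ℝ, κ < 1 / (2 * d * (1 - d)) → Large Λ κ) ∧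
        (∀ (κ : ℝ) (s : ℂ), 0 < κ → Λ s = 0 → 1 / κ < |s.re - 1| →
          ∀ᶠ A : ℝ in atTop, ∃ n : ℕ, 1 ≤ n ∧ (n : ℝ) ≤ κ * A * Real.log A ∧ li Λ A n < 0) ∧
        ((∃ κ : ℝ, 2 < κ ∧ SometimesNonneg Λ κ) ↔ ∃ d : ℝ, d < 1 / 2 ∧ Strip Λ d) ∧
        ((∃ κ : ℝ, 2 < κ ∧ Large Λ κ) ↔ ∃ d : ℝ, d < 1 / 2 ∧ Strip Λ d) ∧
        ((∀ s : ℂ, Λ s = 0 → s.re = 1) ↔ ∀ κ : ℝ, 0 < κ → SometimesNonneg Λ κ) ∧
        ((∀ s : ℂ, Λ s = 0 → s.re = 1) ↔ ∀ κ : ℝ, Large Λ κ)) ∧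
    ∀ a b : ℤ, IsTwist a b → 4 * a ^ 3 + 27 * b ^ 2 ≠ 0 ∧
      ∃ (N : ℕ) (_ : NeZero N) (f : CuspForm (Gamma0 N : Subgroup (GL (Fin 2) ℝ)) 2) (w : ℝ), IsFormOf a b N f w :=
  ⟨fun a b N _ f w h hf => main a b N f w h hf, fun _ _ h => exists_form h⟩

end Pool.Agent.Results.MP_553913_nt.LiBasePoint
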